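import Mathlib
import Pool.Agent.Helper54.CUR.PartC

/-!
Every collapsible finite simplicial complex has a subdivision that is convex union
representable.
-/

namespace Pool.Agent.Results.MP_bce56d_co.CollapsibleCUR

open Finset

/-- A finite abstract simplicial complex on elements of `V`: a finite family of finite sets,
containing the empty set and closed under taking subsets. Its vertices are the `v` with
`{v} ∈ K`. -/
def IsComplex {V : Type*} (K : Finset (Finset V)) : Prop :=
  ∅ ∈ K ∧ ∀ s ∈ K, ∀ t : Finset V, t ⊆ s → t ∈ K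

/-- Elementary collapse: `τ` is properly contained in exactly one face `σ` of `K`, and `K'`
is `K` with `τ` and `σ` deleted. -/
def Collapse {V : Type*} [DecidableEq V] (K K' : Finset (Finset V)) : Prop :=
  ∃ τ ∈ K, ∃ σ ∈ K, (∀ ρ ∈ K, τ ⊂ ρ ↔ ρ = σ) ∧ K' = (K.erase τ).erase σ

/-- `K` is collapsible: a sequence of elementary collapses reduces it to a single vertex. -/
def Collapsible {V : Type*} [DecidableEq V] (K : Finset (Finset V)) : Prop :=
  ∃ v : V, Relation.ReflTransGen Collapse K {∅, {v}}

/-- Isomorphism of finite complexes: `L` is the image of `K` under a map that is injective on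
the vertices of `K`. -/
def Isomorphic {V W : Type*} [DecidableEq W] (K : Finset (Finset V)) (L : Finset (Finset W)) :
    Prop :=
  ∃ f : V → W, Set.InjOn f {v | {v} ∈ K} ∧ L = K.image (fun s => s.image f)

open Classical in
/-- The nerve of the family `U`. -/
noncomputable def nerve {n d : ℕ} (U : Fin n → Set (Fin d → ℝ)) : Finset (Finset (Fin n)) :=
  {s | s = ∅ ∨ (⋂ i ∈ s, U i).Nonempty}

/-- `L` is convex union representable: for some `d` it is isomorphic to the nerve of a finite
family of convex open subsets of real `d`-space whose union is convex. -/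
def ConvexUnionRepresentable {W : Type*} [DecidableEq W] (L : Finset (Finset W)) : Prop :=
  ∃ (n d : ℕ) (U : Fin n → Set (Fin d → ℝ)), (∀ i, IsOpen (U i) ∧ Convex ℝ (U i)) ∧
    Convex ℝ (⋃ i, U i) ∧ Isomorphic (nerve U) L

/-- `P` is a geometric realization of the finite complex `K`: its simplices are the images of
the nonempty faces of `K` under a map that is injective on the vertices of `K`. -/
def IsRealization {V : Type*} {d : ℕ} (K : Finset (Finset V))
    (P : Geometry.SimplicialComplex ℝ (Fin d → ℝ)) : Prop :=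
  ∃ f : V → (Fin d → ℝ), Set.InjOn f {v | {v} ∈ K} ∧
    ∀ t : Finset (Fin d → ℝ), t ∈ P.faces ↔ ∃ s ∈ K, s.Nonempty ∧ t = s.image f

/-- `L` is a subdivision of `K`: they have geometric realizations `Q` and `P` in the same real
`d`-space such that every simplex of `Q` lies in a simplex of `P`, and every simplex of `P` is
a union of simplices of `Q`. -/
def IsSubdivision {V W : Type*} (K : Finset (Finset V)) (L : Finset (Finset W)) : Prop :=
  ∃ (d : ℕ) (P Q : Geometry.SimplicialComplex ℝ (Fin d → ℝ)),
    IsRealization K P ∧ IsRealization L Q ∧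
    (∀ t ∈ Q.faces, ∃ s ∈ P.faces,
      convexHull ℝ (t : Set (Fin d → ℝ)) ⊆ convexHull ℝ (s : Set (Fin d → ℝ))) ∧
    (∀ s ∈ P.faces, ∃ T ⊆ Q.faces,
      convexHull ℝ (s : Set (Fin d → ℝ)) = ⋃ t ∈ T, convexHull ℝ (t : Set (Fin d → ℝ)))

lemma collapse_sub {V : Type*} [DecidableEq V] {K K' : Finset (Finset V)}
    (h : Relation.ReflTransGen Collapse K K') : K' ⊆ K := by
  induction h with
  | refl => exact subset_rfl
  | tail _ h2 ih =>
    obtain ⟨τ, -, σ, -, -, rfl⟩ := h2
    exact ((erase_subset _ _).trans (erase_subset _ _)).trans ih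

theorem exists_sub {V : Type*} [Fintype V] [DecidableEq V] (v : V) (K : Finset (Finset V))
    (h : Relation.ReflTransGen Collapse K {∅, {v}}) :
    IsComplex K → ∃ L : Finset (Finset (V → ℝ)), Pool.Agent.Helper54.CUR.Sub K L := by
  induction h using Relation.ReflTransGen.head_induction_on with
  | refl => exact fun _ => ⟨_, Pool.Agent.Helper54.CUR.sub_point v⟩
  | head h1 h2 ih =>
    rename_i K K1
    intro hK
    have h0 : ∅ ∈ K1 := collapse_sub h2 (by simp)
    obtain ⟨τ, hτ, σ, hσ, hfree, rfl⟩ := h1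
    have hmemK1 : ∀ s, s ∈ (K.erase τ).erase σ ↔ s ≠ σ ∧ s ≠ τ ∧ s ∈ K := by
      intro s; rw [mem_erase, mem_erase]
    have hτσ : τ ⊂ σ := (hfree σ hσ).2 rfl
    have hτne : τ.Nonempty := by
      rw [nonempty_iff_ne_empty]
      exact fun h => ((hmemK1 ∅).1 h0).2.1 h.symm
    obtain ⟨v0, hv0σ, hv0τ⟩ := exists_of_ssubset hτσ
    have hins : insert v0 τ = σ := by
      refine (hfree _ (hK.2 σ hσ _ ?_)).1 (ssubset_insert hv0τ)
      exact insert_subset hv0σ hτσ.subset
    have hK1 : IsComplex ((K.erase τ).erase σ) := by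
      refine ⟨h0, fun s hs t ht => ?_⟩
      rw [hmemK1] at hs ⊢
      obtain ⟨h1, h2, h3⟩ := hs
      refine ⟨?_, ?_, hK.2 s h3 t ht⟩
      · rintro rfl
        exact h1 ((hfree s h3).1 (hτσ.trans_subset ht))
      · rintro rfl
        exact h1 ((hfree s h3).1 (ssubset_of_subset_of_ne ht h2.symm))
    obtain ⟨L, hL⟩ := ih hK1
    refine hL.expand (τ := τ) (v0 := v0) hK1.2 hK.2 hτne hv0τ ?_ ?_ ?_ ?_
    · exact fun h => ((hmemK1 τ).1 h).2.1 rfl
    · rw [hins]; exact hσ
    · exact (erase_subset _ _).trans (erase_subset _ _)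
    · intro s hs h1 h2
      rw [hins] at h2
      exact (hmemK1 s).2 ⟨h2, h1, hs⟩

/-- transport of a complex along an equivalence -/
def tr {V W : Type*} [DecidableEq W] (e : V ≃ W) (K : Finset (Finset V)) : Finset (Finset W) :=
  K.image (fun s => s.image e)

lemma image_inj {V W : Type*} [DecidableEq W] (e : V ≃ W) :
    Function.Injective (fun s : Finset V => s.image e) := Finset.image_injective e.injective

lemma tr_collapse {V W : Type*} [DecidableEq V] [DecidableEq W] (e : V ≃ W)
    {K K' : Finset (Finset V)} (h : Collapse K K') : Collapse (tr e K) (tr e K') := by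
  obtain ⟨τ, hτ, σ, hσ, hfree, rfl⟩ := h
  refine ⟨τ.image e, mem_image_of_mem _ hτ, σ.image e, mem_image_of_mem _ hσ, ?_, ?_⟩
  · intro ρ' hρ'
    obtain ⟨ρ, hρ, rfl⟩ := mem_image.1 hρ'
    rw [Finset.image_ssubset_image e.injective, hfree ρ hρ]
    exact (image_inj e).eq_iff.symm
  · unfold tr
    rw [Finset.image_erase (image_inj e), Finset.image_erase (image_inj e)]

lemma tr_complex {V W : Type*} [DecidableEq W] (e : V ≃ W)
    {K : Finset (Finset V)} (h : IsComplex K) : IsComplex (tr e K) := by
  classical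
  refine ⟨mem_image.2 ⟨∅, h.1, by simp⟩, fun s' hs' t ht => ?_⟩
  obtain ⟨s, hs, rfl⟩ := mem_image.1 hs'
  refine mem_image.2 ⟨t.image e.symm, h.2 s hs _ ?_, ?_⟩
  · intro x hx
    obtain ⟨y, hy, rfl⟩ := mem_image.1 hx
    obtain ⟨z, hz, rfl⟩ := mem_image.1 (ht hy)
    simpa using hz
  · simp [image_image]

/-- Every collapsible complex has a convex union representable subdivision. -/
theorem result {V : Type*} [Fintype V] [DecidableEq V] (K : Finset (Finset V))
    (hK : IsComplex K) (hc : Collapsible K) :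
    ∃ (n : ℕ) (L : Finset (Finset (Fin n))),
      IsComplex L ∧ IsSubdivision K L ∧ ConvexUnionRepresentable L := by
  classical
  obtain ⟨v, hv⟩ := hc
  set e := Fintype.equivFin V with he
  have hv' : Relation.ReflTransGen Collapse (tr e K) {∅, {e v}} := by
    have : Relation.ReflTransGen Collapse (tr e K) (tr e {∅, {v}}) :=
      Relation.ReflTransGen.lift (tr e) (fun _ _ => tr_collapse e) _ _ hv
    have h2 : tr e {∅, {v}} = {∅, {e v}} := by simp [tr]
    rwa [h2] at this
  have hK' := tr_complex e hK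
  obtain ⟨M, hM⟩ := exists_sub (e v) (tr e K) hv' hK'
  obtain ⟨n, f, U, hf, hfv, hU, hUc, hnerve⟩ := hM.build.nerve
  have hMc := hM.build.cpx
  obtain ⟨P, Q, hP, hQ, hPQ, hQP⟩ := hM.geom hK'
  have hmem : ∀ s, s ∈ nerve U ↔ s.image f ∈ M := by
    intro s
    rw [← hnerve s, nerve]
    simp
  refine ⟨n, nerve U, ⟨?_, ?_⟩, ⟨_, P, Q, ?_, ?_, hPQ, hQP⟩, n, n, U, hU, hUc, id, ?_, ?_⟩
  · rw [hmem]; simpa using hMc.1
  · intro s hs t ht
    rw [hmem] at hs ⊢
    exact hMc.2 _ hs _ (image_subset_image ht)
  · refine ⟨fun v => Pool.Agent.Helper54.CUR.ev (e v), ?_, ?_⟩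
    · intro x _ y _ hxy
      exact e.injective (Pool.Agent.Helper54.CUR.ev_inj hxy)
    · intro t
      rw [hP]
      constructor
      · rintro ⟨F, hF, hne, rfl⟩
        obtain ⟨s, hs, rfl⟩ := mem_image.1 hF
        refine ⟨s, hs, by simpa using hne, ?_⟩
        rw [image_image]
        rfl
      · rintro ⟨s, hs, hne, rfl⟩
        refine ⟨s.image e, mem_image_of_mem _ hs, hne.image _, ?_⟩
        rw [image_image]
        rfl
  · refine ⟨f, hf.injOn, ?_⟩
    intro t
    rw [hQ]
    constructor
    · rintro ⟨ht, hne⟩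
      have hex : t = (univ.filter (fun i => f i ∈ t)).image f := by
        ext p
        simp only [mem_image, mem_filter, mem_univ, true_and]
        constructor
        · intro hp
          obtain ⟨i, rfl⟩ := hfv p (Pool.Agent.Helper54.CUR.subset_vs ht hp)
          exact ⟨i, hp, rfl⟩
        · rintro ⟨i, hi, rfl⟩
          exact hi
      refine ⟨_, ?_, ?_, hex⟩
      · rw [hmem, ← hex]; exact ht
      · rw [hex] at hne
        simpa using hne
    · rintro ⟨s, hs, hne, rfl⟩
      exact ⟨(hmem s).1 hs, hne.image _⟩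
  · exact Set.injOn_id _
  · simp

end Pool.Agent.Results.MP_bce56d_co.CollapsibleCUR
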